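import Pool.Agent.U280.OE.Stm

/-!
# Project OE, package D: measurability and Fubini for the pointwise decomposition (helper869,
adapted from package D of project OD by helper454)
-/

set_option autoImplicit false

open MeasureTheory FourierTransform Set Filter Topology

namespace Pool.Agent.U869.OE

open Pool.Agent.U280.OD Pool.Agent.U280.OE

/-- the Fourier character of the inner product -/
noncomputable def ch {d : ℕ} (x ξ : E d) : ℂ := ((Real.fourierChar (inner ℝ ξ x) : Circle) : ℂ)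

theorem norm_ch {d : ℕ} (x ξ : E d) : ‖ch x ξ‖ = 1 := Circle.norm_coe _

theorem continuous_ch {d : ℕ} : Continuous (fun p : E d × E d => ch p.1 p.2) := by
  unfold ch
  have h : Continuous fun p : E d × E d => Real.fourierChar (inner ℝ p.2 p.1) := by
    have h1 : Continuous (Real.fourierChar : ℝ → Circle) := Real.continuous_fourierChar
    exact h1.comp (continuous_snd.inner continuous_fst)
  exact continuous_subtype_val.comp h

theorem continuous_ch' {d : ℕ} {X : Type} [TopologicalSpace X] (a b : X → E d) (ha : Continuous a)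
    (hb : Continuous b) : Continuous (fun q => ch (a q) (b q)) :=
  continuous_ch.comp (ha.prodMk hb)

theorem inv_eq {d : ℕ} (f : E d → ℂ) (x : E d) : 𝓕⁻ f x = ∫ ξ, ch x ξ * f ξ := by
  rw [Real.fourierInv_eq]
  rfl

theorem continuous_F {d : ℕ} (u : E d → ℂ) (hu : Integrable u) : Continuous (𝓕 u) :=
  VectorFourier.fourierIntegral_continuous Real.continuous_fourierChar
    (innerSL ℝ).continuous₂ hu

theorem norm_F_le {d : ℕ} (u : E d → ℂ) (ξ : E d) : ‖𝓕 u ξ‖ ≤ ∫ x, ‖u x‖ :=
  VectorFourier.norm_fourierIntegral_le_integral_norm _ _ _ _ _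

theorem lam_nonneg {d : ℕ} (ξ : E d) : 0 ≤ lam ξ := by unfold lam; positivity

theorem continuous_lam {d : ℕ} : Continuous (lam : E d → ℝ) := by
  unfold lam
  fun_prop

theorem nu_nonneg (τ l : ℝ) (hl : 0 ≤ l) : 0 ≤ nu τ l := by
  unfold nu
  have h : 0 ≤ 2 + 2 * (τ * l) + (τ * l) ^ 2 := by nlinarith [sq_nonneg (τ * l + 1)]
  positivity

theorem continuous_nu : Continuous (fun p : ℝ × ℝ => nu p.1 p.2) := by
  unfold nu
  fun_prop

theorem measurable_psi : Measurable psi := by
  unfold psi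
  have h1 : Measurable fun t : ℝ => max 1 t := measurable_const.max measurable_id
  exact measurable_const.mul ((measurable_const.div (h1.pow_const 2)).sub
    (measurable_const.div (h1.pow_const 3)))

theorem psi_nonneg (t : ℝ) : 0 ≤ psi t := by
  unfold psi
  have h1 : 1 ≤ max 1 t := le_max_left _ _
  have h0 : 0 < max 1 t := by linarith
  have h2 : 3 / (max 1 t) ^ 2 - 2 / (max 1 t) ^ 3 = (3 * max 1 t - 2) / (max 1 t) ^ 3 := by
    field_simp
  rw [h2]
  have h3 : 0 ≤ 3 * max 1 t - 2 := by linarith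
  positivity

theorem integrable_gauss {d : ℕ} (ε : ℝ) (hε : 0 < ε) :
    Integrable (fun ξ : E d => Real.exp (-(ε * lam ξ))) := by
  have hb : 0 < ((ε * (4 * Real.pi ^ 2) : ℝ) : ℂ).re := by
    rw [Complex.ofReal_re]
    positivity
  have h := (GaussianFourier.integrable_cexp_neg_mul_sq_norm_add (V := E d) hb 0 0).norm
  refine h.congr (Filter.Eventually.of_forall fun ξ => ?_)
  simp only
  rw [Complex.norm_exp]
  congr 1
  have h2 : (-((ε * (4 * Real.pi ^ 2) : ℝ) : ℂ) * (‖ξ‖ : ℂ) ^ 2 +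
      0 * ((inner ℝ (0 : E d) ξ : ℝ) : ℂ)) = ((-(ε * lam ξ) : ℝ) : ℂ) := by
    unfold lam
    push_cast
    ring
  rw [h2, Complex.ofReal_re]

/-- the integrand of `cop`, with `g` in place of the Fourier transform -/
noncomputable def KK {d : ℕ} (ε : ℝ) (g : E d → ℂ) (p : E d × ℝ) (ξ : E d) : ℂ :=
  ch p.1 ξ * (((nu p.2 (lam ξ) * Real.exp (-(ε * lam ξ)) : ℝ) : ℂ) * g ξ)

/-- the integrand of `heat`, with `g` in place of the Fourier transform -/
noncomputable def HH {d : ℕ} (r : ℝ) (g : E d → ℂ) (x ξ : E d) : ℂ :=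
  ch x ξ * (((Real.exp (-(r * lam ξ)) : ℝ) : ℂ) * g ξ)

theorem cop_eq {d : ℕ} (ε τ : ℝ) (u : E d → ℂ) (x : E d) :
    cop ε τ u x = ∫ ξ, KK ε (𝓕 u) (x, τ) ξ := by
  unfold cop
  rw [inv_eq]
  rfl

theorem heat_eq {d : ℕ} (r : ℝ) (u : E d → ℂ) (x : E d) :
    heat r u x = ∫ ξ, HH r (𝓕 u) x ξ := by
  unfold heat
  rw [inv_eq]
  rfl

theorem continuous_KK {d : ℕ} (ε : ℝ) (g : E d → ℂ) (hg : Continuous g) :
    Continuous (Function.uncurry (KK ε g)) := by
  have g4 : Continuous fun q : (E d × ℝ) × E d => q.1.1 := continuous_fst.comp continuous_fst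
  have g5 : Continuous fun q : (E d × ℝ) × E d => q.2 := continuous_snd
  have g0 : Continuous fun q : (E d × ℝ) × E d => lam q.2 := continuous_lam.comp continuous_snd
  have g3 : Continuous fun q : (E d × ℝ) × E d => q.1.2 := continuous_snd.comp continuous_fst
  have g2 : Continuous fun q : (E d × ℝ) × E d => (q.1.2, lam q.2) := g3.prodMk g0
  have hc1 : Continuous fun q : (E d × ℝ) × E d => ch q.1.1 q.2 := continuous_ch' _ _ g4 g5
  have hc2 : Continuous fun q : (E d × ℝ) × E d => nu q.1.2 (lam q.2) := continuous_nu.comp g2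
  have hc3 : Continuous fun q : (E d × ℝ) × E d => Real.exp (-(ε * lam q.2)) :=
    Real.continuous_exp.comp (continuous_const.mul g0).neg
  have hc4 : Continuous fun q : (E d × ℝ) × E d => g q.2 := hg.comp continuous_snd
  have hc5 : Continuous fun q : (E d × ℝ) × E d =>
      ((nu q.1.2 (lam q.2) * Real.exp (-(ε * lam q.2)) : ℝ) : ℂ) :=
    Complex.continuous_ofReal.comp (hc2.mul hc3)
  exact hc1.mul (hc5.mul hc4)

theorem t_D1 : T_D1 := by
  intro d u hu hc ε hε
  have hui : Integrable u := hu.integrable_of_hasCompactSupport hc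
  have hF := continuous_F u hui
  have h2 : StronglyMeasurable (Function.uncurry (KK ε (𝓕 u))) :=
    (continuous_KK ε _ hF).stronglyMeasurable
  have h3 : StronglyMeasurable fun p : E d × ℝ => ∫ ξ, KK ε (𝓕 u) p ξ :=
    h2.integral_prod_right
  have h4 : (fun p : E d × ℝ => cop ε p.2 u p.1) = fun p : E d × ℝ => ∫ ξ, KK ε (𝓕 u) p ξ := by
    funext p
    exact cop_eq ε p.2 u p.1
  rw [h4]
  exact h3

theorem integrable_HH {d : ℕ} (r C : ℝ) (hr : 0 < r) (g : E d → ℂ) (hg : Continuous g)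
    (hC : ∀ ξ, ‖g ξ‖ ≤ C) (x : E d) : Integrable (HH r g x) := by
  have hgr : Integrable (fun ξ : E d => Real.exp (-(r * lam ξ)) * C) :=
    (integrable_gauss (d := d) r hr).mul_const C
  refine Integrable.mono' hgr ?_ ?_
  · have hcx : Continuous fun ξ : E d => ch x ξ :=
      continuous_ch.comp (continuous_const.prodMk continuous_id)
    have hcr : Continuous fun ξ : E d => Real.exp (-(r * lam ξ)) :=
      Real.continuous_exp.comp (continuous_const.mul continuous_lam).neg
    have hcr2 : Continuous fun ξ : E d => ((Real.exp (-(r * lam ξ)) : ℝ) : ℂ) :=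
      Complex.continuous_ofReal.comp hcr
    have hcr4 : Continuous (HH r g x) := hcx.mul (hcr2.mul hg)
    exact hcr4.aestronglyMeasurable
  · refine Filter.Eventually.of_forall fun ξ => ?_
    unfold HH
    rw [norm_mul, norm_ch, one_mul, norm_mul, Complex.norm_real, Real.norm_eq_abs,
      abs_of_pos (Real.exp_pos _)]
    exact mul_le_mul_of_nonneg_left (hC ξ) (Real.exp_pos _).le

theorem core (hA : T_A1) {d : ℕ} (ε s C : ℝ) (hε : 0 < ε) (hs : 0 < s) (g : E d → ℂ)
    (hg : Continuous g) (hC : ∀ ξ, ‖g ξ‖ ≤ C) (x : E d) :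
    (∫ ξ, HH ε g x ξ) - (∫ ξ, HH (s + ε) g x ξ) =
      ∫ τ in Ioi (0 : ℝ), ((psi (τ / s) : ℝ) : ℂ) * ∫ ξ, KK ε g (x, τ) ξ := by
  -- the integrand
  set W : ℝ → E d → ℂ := fun τ ξ => ((psi (τ / s) * nu τ (lam ξ) : ℝ) : ℂ) * HH ε g x ξ with hW
  have hcx : Continuous fun ξ : E d => ch x ξ :=
    continuous_ch.comp (continuous_const.prodMk continuous_id)
  have hce : Continuous fun ξ : E d => Real.exp (-(ε * lam ξ)) :=
    Real.continuous_exp.comp (continuous_const.mul continuous_lam).neg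
  have hce2 : Continuous fun ξ : E d => ((Real.exp (-(ε * lam ξ)) : ℝ) : ℂ) :=
    Complex.continuous_ofReal.comp hce
  have hcH : Continuous (HH ε g x) := hcx.mul (hce2.mul hg)
  have hWm : Measurable (Function.uncurry W) := by
    have h1 : Measurable fun q : ℝ × E d => psi (q.1 / s) :=
      measurable_psi.comp (measurable_fst.div measurable_const)
    have h0 : Measurable fun q : ℝ × E d => lam q.2 := continuous_lam.measurable.comp measurable_snd
    have h2 : Measurable fun q : ℝ × E d => nu q.1 (lam q.2) :=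
      continuous_nu.measurable.comp (measurable_fst.prodMk h0)
    have h3 : Measurable fun q : ℝ × E d => HH ε g x q.2 := hcH.measurable.comp measurable_snd
    exact (Complex.measurable_ofReal.comp (h1.mul h2)).mul h3
  have hWs : AEStronglyMeasurable (Function.uncurry W)
      ((volume.restrict (Ioi (0 : ℝ))).prod (volume : Measure (E d))) :=
    hWm.aestronglyMeasurable
  have hHn : ∀ ξ, ‖HH ε g x ξ‖ = Real.exp (-(ε * lam ξ)) * ‖g ξ‖ := by
    intro ξ
    unfold HH
    rw [norm_mul, norm_ch, one_mul, norm_mul, Complex.norm_real, Real.norm_eq_abs,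
      abs_of_pos (Real.exp_pos _)]
  -- the norm
  have hnorm : ∀ τ : ℝ, 0 < τ → ∀ ξ : E d, ‖W τ ξ‖ =
      (psi (τ / s) * nu τ (lam ξ)) * (Real.exp (-(ε * lam ξ)) * ‖g ξ‖) := by
    intro τ hτ ξ
    have h0 : 0 ≤ psi (τ / s) * nu τ (lam ξ) :=
      mul_nonneg (psi_nonneg _) (nu_nonneg τ _ (lam_nonneg ξ))
    simp only [hW]
    rw [norm_mul, hHn, Complex.norm_real, Real.norm_eq_abs, abs_of_nonneg h0]
  have hint1 : ∀ ξ : E d, Integrable (fun τ => W τ ξ) (volume.restrict (Ioi (0 : ℝ))) := by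
    intro ξ
    have h1 := (hA.1 s (lam ξ) hs (lam_nonneg ξ)).1
    have h2 : Integrable (fun τ => ((psi (τ / s) * nu τ (lam ξ) : ℝ) : ℂ))
        (volume.restrict (Ioi (0 : ℝ))) := h1.ofReal
    exact h2.mul_const _
  have hval : ∀ ξ : E d, ∫ τ in Ioi (0 : ℝ), W τ ξ =
      ((1 - Real.exp (-(s * lam ξ)) : ℝ) : ℂ) * HH ε g x ξ := by
    intro ξ
    simp only [hW]
    rw [integral_mul_const, integral_complex_ofReal, (hA.1 s (lam ξ) hs (lam_nonneg ξ)).2]
  have hvaln : ∀ ξ : E d, ∫ τ in Ioi (0 : ℝ), ‖W τ ξ‖ =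
      (1 - Real.exp (-(s * lam ξ))) * (Real.exp (-(ε * lam ξ)) * ‖g ξ‖) := by
    intro ξ
    rw [setIntegral_congr_fun measurableSet_Ioi (fun τ hτ => hnorm τ hτ ξ), integral_mul_const,
      (hA.1 s (lam ξ) hs (lam_nonneg ξ)).2]
  have hWi : Integrable (Function.uncurry W)
      ((volume.restrict (Ioi (0 : ℝ))).prod (volume : Measure (E d))) := by
    rw [integrable_prod_iff' hWs]
    refine ⟨Filter.Eventually.of_forall fun ξ => hint1 ξ, ?_⟩
    have h1 : (fun ξ : E d => ∫ τ in Ioi (0 : ℝ), ‖Function.uncurry W (τ, ξ)‖) =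
        fun ξ : E d => (1 - Real.exp (-(s * lam ξ))) * (Real.exp (-(ε * lam ξ)) * ‖g ξ‖) := by
      funext ξ
      exact hvaln ξ
    rw [h1]
    have hgr : Integrable (fun ξ : E d => Real.exp (-(ε * lam ξ)) * C) :=
      (integrable_gauss (d := d) ε hε).mul_const C
    refine Integrable.mono' hgr ?_ ?_
    · have hcs : Continuous fun ξ : E d => Real.exp (-(s * lam ξ)) :=
        Real.continuous_exp.comp (continuous_const.mul continuous_lam).neg
      have hc1 : Continuous fun ξ : E d => 1 - Real.exp (-(s * lam ξ)) := continuous_const.sub hcs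
      exact (hc1.mul (hce.mul hg.norm)).aestronglyMeasurable
    · refine Filter.Eventually.of_forall fun ξ => ?_
      have h2 : 0 ≤ 1 - Real.exp (-(s * lam ξ)) := by
        have : Real.exp (-(s * lam ξ)) ≤ 1 := by
          apply Real.exp_le_one_iff.2
          have := mul_nonneg hs.le (lam_nonneg ξ)
          linarith
        linarith
      have h3 : 1 - Real.exp (-(s * lam ξ)) ≤ 1 := by
        have := Real.exp_pos (-(s * lam ξ))
        linarith
      have h5 : 0 ≤ Real.exp (-(ε * lam ξ)) * ‖g ξ‖ := by positivity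
      rw [Real.norm_eq_abs, abs_of_nonneg (mul_nonneg h2 h5)]
      calc (1 - Real.exp (-(s * lam ξ))) * (Real.exp (-(ε * lam ξ)) * ‖g ξ‖)
          ≤ 1 * (Real.exp (-(ε * lam ξ)) * ‖g ξ‖) := mul_le_mul_of_nonneg_right h3 h5
        _ = Real.exp (-(ε * lam ξ)) * ‖g ξ‖ := one_mul _
        _ ≤ Real.exp (-(ε * lam ξ)) * C := mul_le_mul_of_nonneg_left (hC ξ) (Real.exp_pos _).le
  -- Fubini
  have hfub : ∫ τ in Ioi (0 : ℝ), ∫ ξ, W τ ξ = ∫ ξ, ∫ τ in Ioi (0 : ℝ), W τ ξ :=
    integral_integral_swap hWi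
  have hright : ∀ τ : ℝ, ((psi (τ / s) : ℝ) : ℂ) * ∫ ξ, KK ε g (x, τ) ξ = ∫ ξ, W τ ξ := by
    intro τ
    rw [← integral_const_mul]
    congr 1
    funext ξ
    simp only [hW, KK, HH]
    push_cast
    ring
  rw [integral_congr_ae (Filter.Eventually.of_forall hright), hfub,
    ← integral_sub (integrable_HH ε C hε g hg hC x) (integrable_HH (s + ε) C (by linarith) g hg hC x)]
  congr 1
  funext ξ
  rw [hval ξ]
  have h6 : Real.exp (-((s + ε) * lam ξ)) = Real.exp (-(s * lam ξ)) * Real.exp (-(ε * lam ξ)) := by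
    rw [← Real.exp_add]
    congr 1
    ring
  unfold HH
  rw [h6]
  push_cast
  ring

theorem t_D2 (hA : T_A1) : T_D2 := by
  intro d u hu hc ε s hε hs x
  have hui : Integrable u := hu.integrable_of_hasCompactSupport hc
  have hF := continuous_F u hui
  have h := core hA ε s (∫ x, ‖u x‖) hε hs (𝓕 u) hF (norm_F_le u) x
  rw [heat_eq, heat_eq, h]
  refine integral_congr_ae (Filter.Eventually.of_forall fun τ => ?_)
  simp only
  rw [cop_eq]

end Pool.Agent.U869.OE
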